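import Pool.Agent.Helper85.QT.St3

set_option autoImplicit false

open MeasureTheory Matrix Set Topology
open scoped ENNReal ComplexConjugate

namespace Pool.Agent.Helper39.QT

open Pool.Agent.Helper85.QT Pool.Agent.Helper86.QA

theorem hLKA (hHLI : Pool.Agent.Helper85.QT.StHLI) (hPUL : Pool.Agent.Helper85.QT.StPUL) :
    Pool.Agent.Helper85.QT.StLKA := by
  intro Γ _ ρ A B α lam M G m φ C3 hAnn hCls μ0 μ hCof hμ0 a ha b hb ha0 hb0 hab
  obtain ⟨hdif, hint, hEE, hmu⟩ := hPUL Γ ρ A B α lam M G m φ C3 hAnn hCls a ha b hb ha0 hb0 hab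
  obtain ⟨-, hK⟩ := hmu μ0 μ hCof
  have hm1 : 1 ≤ m := hAnn.m1
  have hm : 0 < m := by linarith
  obtain ⟨J, -, -, h3, -⟩ := hHLI m _ hm hdif hint
  obtain ⟨hI, hE⟩ := hEE (m / 3) (2 * m / 3) (by linarith) (by linarith)
  rw [← ofReal_integral_eq_lintegral_ofReal hI.norm
    (Filter.Eventually.of_forall fun _ => norm_nonneg _), hE, hK]
  rw [show (3 : ℝ≥0∞) = ENNReal.ofReal 3 by norm_num, ← ENNReal.ofReal_mul (by norm_num)]
  apply ENNReal.ofReal_le_ofReal
  rw [norm_mul]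
  refine (mul_le_mul_of_nonneg_right hμ0 (norm_nonneg _)).trans ?_
  rw [one_mul]
  exact h3

end Pool.Agent.Helper39.QT

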