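import Pool.Agent.Helper85.QT.St3

set_option autoImplicit false

open MeasureTheory Matrix Set Topology
open scoped ENNReal ComplexConjugate

namespace Pool.Agent.Helper39.QT

open Pool.Agent.Helper85.QT Pool.Agent.Helper86.QA

theorem hLKD (hHME : Pool.Agent.Helper86.QA.StHME) (hSB5 : Pool.Agent.Helper85.QT.StSB5)
    (hANB : Pool.Agent.Helper85.QT.StANB) (hLIA : Pool.Agent.Helper85.QT.StLIA)
    (hCRF : Pool.Agent.Helper85.QT.StCRF) (hTIN : Pool.Agent.Helper85.QT.StTIN) :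
    Pool.Agent.Helper85.QT.StLKD := by
  intro c0 hc0
  obtain ⟨C, m₁, hC, hL⟩ := hLIA
  have hpi := Real.pi_pos
  have hc00 : (0 : ℝ) < c0 := by linarith
  refine ⟨2 * Real.pi * (C * (24 * c0 ^ 2)), max m₁ (16 * Real.pi * c0), by positivity, ?_⟩
  intro Γ _ ρ A B α lam M G m φ C3 hAnn hm a ha b hb ha0 hb0 hab
  have hm1 : m₁ ≤ m := le_trans (le_max_left _ _) hm
  have hm2 : 16 * Real.pi * c0 ≤ m := le_trans (le_max_right _ _) hm
  have hmone : 1 ≤ m := hAnn.m1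
  have hB := hANB Γ ρ A B α lam M G m φ C3 hAnn
  have hlam : lam ≠ 0 := hB.1
  have hlm : ‖lam‖ * m ≤ 2 * Real.pi := hB.2.2.2.2.2.2.2.1
  have hop : ∀ a b : ℝ, 0 ≤ a → b ≤ m → EE lam G φ a b ⊆ A ∧ IsOpen (EE lam G φ a b) :=
    hB.2.2.2.2.2.2.2.2.2.2.2.2.2.2
  have hE : MeasurableSet (EE lam G φ (m / 3) (2 * m / 3)) :=
    (hop (m / 3) (2 * m / 3) (by linarith) (by linarith)).2.measurableSet
  have h8 : 8 * c0 * ‖lam‖ ≤ 1 := by
    have h1 : ‖lam‖ * (16 * Real.pi * c0) ≤ ‖lam‖ * m :=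
      mul_le_mul_of_nonneg_left hm2 (norm_nonneg _)
    have h2 : 2 * Real.pi * (8 * c0 * ‖lam‖) ≤ 2 * Real.pi * 1 := by linarith
    exact le_of_mul_le_mul_left h2 (by positivity)
  obtain ⟨-, hC2, -⟩ := hCRF a b hab
  rw [hC2 _ hE]
  have hup : ∀ u : ℝ, gp a b u ∈ up := fun u => (hSB5.1 a b u u hab).1
  have hsb : ∀ u : ℝ, sb A B (gp a b u) ≤ 0 :=
    fun u => hSB5.2 Γ ρ A B hAnn.kd a ha b hb hab u
  have hle1 : ∀ u : ℝ, hv (EE lam G φ (m / 3) (2 * m / 3)) (gp a b u) ≤ 1 :=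
    fun u => (hHME.1 _ _ hE (hup u)).2.2
  have hle2 : ∀ u : ℝ, hv (EE lam G φ (m / 3) (2 * m / 3)) (gp a b u) ≤
      (C / m ^ 2) * TT lam (gp a b u) ^ 2 := by
    intro u
    have h := hL Γ ρ A B α lam M G m φ C3 hAnn hm1 (gp a b u) (hup u) (hsb u)
    have e : C * TT lam (gp a b u) ^ 2 / m ^ 2 = (C / m ^ 2) * TT lam (gp a b u) ^ 2 := by ring
    rw [← e]
    exact h
  have hT := (hTIN c0 hc0 lam hlam h8 a b ha0 hb0 hab).1
  have hCm : 0 ≤ C / m ^ 2 := by positivity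
  have key : ∫⁻ u : ℝ, ENNReal.ofReal (hv (EE lam G φ (m / 3) (2 * m / 3)) (gp a b u)) ≤
      volume {u : ℝ | 2 * c0 < TT lam (gp a b u)} +
        ENNReal.ofReal (C / m ^ 2) * ENNReal.ofReal (24 * c0 ^ 2) := by
    have hU : {u : ℝ | 2 * c0 < TT lam (gp a b u)} ∪ {u : ℝ | TT lam (gp a b u) ≤ 2 * c0} =
        univ := by
      ext u
      simp only [mem_union, mem_setOf_eq, mem_univ, iff_true]
      exact lt_or_ge _ _
    calc ∫⁻ u : ℝ, ENNReal.ofReal (hv (EE lam G φ (m / 3) (2 * m / 3)) (gp a b u))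
        = ∫⁻ u in {u : ℝ | 2 * c0 < TT lam (gp a b u)} ∪ {u : ℝ | TT lam (gp a b u) ≤ 2 * c0},
            ENNReal.ofReal (hv (EE lam G φ (m / 3) (2 * m / 3)) (gp a b u)) := by
          rw [hU, Measure.restrict_univ]
      _ ≤ (∫⁻ u in {u : ℝ | 2 * c0 < TT lam (gp a b u)},
            ENNReal.ofReal (hv (EE lam G φ (m / 3) (2 * m / 3)) (gp a b u))) +
          ∫⁻ u in {u : ℝ | TT lam (gp a b u) ≤ 2 * c0},
            ENNReal.ofReal (hv (EE lam G φ (m / 3) (2 * m / 3)) (gp a b u)) :=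
          lintegral_union_le _ _ _
      _ ≤ _ := by
          refine add_le_add ?_ ?_
          · calc _ ≤ ∫⁻ u in {u : ℝ | 2 * c0 < TT lam (gp a b u)}, 1 := by
                  refine lintegral_mono fun u => ?_
                  exact (ENNReal.ofReal_le_ofReal (hle1 u)).trans (by simp)
              _ = _ := setLIntegral_one _
          · calc _ ≤ ∫⁻ u in {u : ℝ | TT lam (gp a b u) ≤ 2 * c0},
                    ENNReal.ofReal (C / m ^ 2) * ENNReal.ofReal (TT lam (gp a b u) ^ 2) := by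
                  refine lintegral_mono fun u => ?_
                  rw [← ENNReal.ofReal_mul hCm]
                  exact ENNReal.ofReal_le_ofReal (hle2 u)
              _ = ENNReal.ofReal (C / m ^ 2) * ∫⁻ u in {u : ℝ | TT lam (gp a b u) ≤ 2 * c0},
                    ENNReal.ofReal (TT lam (gp a b u) ^ 2) :=
                  lintegral_const_mul' _ _ ENNReal.ofReal_ne_top
              _ ≤ _ := by gcongr
  calc ENNReal.ofReal (2 * Real.pi) *
        ∫⁻ u : ℝ, ENNReal.ofReal (hv (EE lam G φ (m / 3) (2 * m / 3)) (gp a b u))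
      ≤ ENNReal.ofReal (2 * Real.pi) * (volume {u : ℝ | 2 * c0 < TT lam (gp a b u)} +
        ENNReal.ofReal (C / m ^ 2) * ENNReal.ofReal (24 * c0 ^ 2)) := by gcongr
    _ = ENNReal.ofReal (2 * Real.pi * ((C / m ^ 2) * (24 * c0 ^ 2))) +
        ENNReal.ofReal (2 * Real.pi) * volume {u : ℝ | 2 * c0 < TT lam (gp a b u)} := by
        rw [mul_add, ← ENNReal.ofReal_mul hCm, ← ENNReal.ofReal_mul (by positivity), add_comm]
    _ ≤ _ := by
        gcongr
        exact div_le_self hC.le (one_le_pow₀ hmone)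

end Pool.Agent.Helper39.QT

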