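import Pool.Agent.Helper69.QT.St

/-!
# Project QD (MP_d112a4_gt), T1, module DEF: deformations are quasifuchsian
-/

set_option autoImplicit false

open MeasureTheory Set Filter Topology Complex
open scoped ENNReal ComplexConjugate

namespace Pool.Agent.Helper39.QT

open Pool.Agent.Helper69.QT
open Pool.Agent.Helper68.QC (Bel InvB Intw nq)
open Pool.Agent.Helper61.QE (D)
open Pool.Agent.Helper35.PM (SL Mat SurfaceGroup IsQF)
open Pool.Agent.Helper20.QD (Fuch IsSU mob)

theorem dDEF : St_DEF := by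
  intro hTQF g s φ k μ ρ hff hd
  refine hTQF (SurfaceGroup g) (s.comp φ.toMonoidHom) ρ (nq μ) ⟨?_, (nq μ).isHomeomorph, ?_⟩ ?_
  · refine ⟨fun γ => hff.fu.su (φ γ), fun X => ?_, ?_⟩
    · exact (hff.fu.discrete X).preimage φ.injective.injOn
    · obtain ⟨r, hr, h⟩ := hff.fu.cocompact
      refine ⟨r, hr, fun z hz => ?_⟩
      obtain ⟨γ, hγ⟩ := h z hz
      refine ⟨φ.symm γ, ?_⟩
      have h1 : (s.comp φ.toMonoidHom) (φ.symm γ) = s γ := by
        change s (φ (φ.symm γ)) = s γ
        rw [φ.apply_symm_apply]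
      rw [h1]
      exact hγ
  · intro γ z
    obtain ⟨h1, h2, -, -⟩ := hd.eqv γ
    exact ⟨h1 z, h2 z⟩
  · intro γ hγ
    by_contra hne
    have h1 : φ γ ≠ 1 := fun h => hne (φ.injective (h.trans (map_one φ).symm))
    refine hff.fr (φ γ) h1 0 (Metric.mem_ball_self one_pos) ?_
    rcases hγ with h | h
    · have h2 : (s (φ γ) : Mat) = 1 := h
      unfold mob
      rw [h2]
      simp
    · have h2 : (s (φ γ) : Mat) = -1 := h
      unfold mob
      rw [h2]
      simp

end Pool.Agent.Helper39.QT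

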