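import Pool.Agent.Helper88.QT.St3
import Pool.Agent.Helper85.QT.St1

set_option autoImplicit false

open MeasureTheory Matrix Set Topology
open scoped ENNReal ComplexConjugate

namespace Pool.Agent.Helper39.QT

open Pool.Agent.Helper88.QT Pool.Agent.Helper85.QT Pool.Agent.Helper86.QA

theorem hso_aux (F : ℂ → ℂ) (hd : DifferentiableOn ℂ F (Metric.ball 0 1))
    (hF : ∀ z ∈ Metric.ball (0 : ℂ) 1, 0 ≤ (F z).re) (ha : 0 < (F 0).re) (z : ℂ)
    (hz : ‖z‖ ≤ 1 / 2) :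
    (F z).re ≤ (F 0).re + ‖deriv F 0‖ * ‖z‖ + 8 * (F 0).re * ‖z‖ ^ 2 := by
  set a : ℝ := (F 0).re with hadef
  have h0 : (0 : ℂ) ∈ Metric.ball (0 : ℂ) 1 := by simp
  have hz1 : z ∈ Metric.ball (0 : ℂ) 1 := by
    rw [mem_ball_zero_iff]; linarith
  have hden : ∀ w ∈ Metric.ball (0 : ℂ) 1, F w + conj (F 0) ≠ 0 := by
    intro w hw h
    have h1 := congrArg Complex.re h
    rw [Complex.add_re, Complex.conj_re, Complex.zero_re] at h1
    have := hF w hw
    linarith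
  set φ : ℂ → ℂ := fun w => (F w - F 0) / (F w + conj (F 0)) with hφ
  have hφd : DifferentiableOn ℂ φ (Metric.ball 0 1) :=
    (hd.sub_const _).div (hd.add_const _) hden
  have hφ0 : φ 0 = 0 := by simp [hφ]
  have hφ1 : ∀ w ∈ Metric.ball (0 : ℂ) 1, ‖φ w‖ ≤ 1 := by
    intro w hw
    rw [hφ]
    simp only [norm_div]
    rw [div_le_one (norm_pos_iff.mpr (hden w hw))]
    have h2 : ‖F w - F 0‖ ^ 2 ≤ ‖F w + conj (F 0)‖ ^ 2 := by
      rw [← Complex.normSq_eq_norm_sq, ← Complex.normSq_eq_norm_sq, Complex.normSq_apply,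
        Complex.normSq_apply]
      simp only [Complex.sub_re, Complex.sub_im, Complex.add_re, Complex.add_im,
        Complex.conj_re, Complex.conj_im]
      have h3 := mul_nonneg (hF w hw) ha.le
      nlinarith
    exact le_of_sq_le_sq h2 (norm_nonneg _)
  have hmaps : MapsTo φ (Metric.ball 0 1) (Metric.closedBall (φ 0) 1) := by
    intro w hw
    rw [hφ0, mem_closedBall_zero_iff]
    exact hφ1 w hw
  have hmaps0 : MapsTo φ (Metric.ball 0 1) (Metric.closedBall 0 1) := by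
    intro w hw
    rw [mem_closedBall_zero_iff]
    exact hφ1 w hw
  have hS1 : ‖φ z‖ ≤ ‖z‖ :=
    Complex.norm_le_norm_of_mapsTo_ball hφd hmaps0 hφ0 (by linarith)
  have hψd : DifferentiableOn ℂ (dslope φ 0) (Metric.ball 0 1) :=
    (Complex.differentiableOn_dslope (Metric.ball_mem_nhds _ one_pos)).mpr hφd
  have hψ1 : ∀ w ∈ Metric.ball (0 : ℂ) 1, ‖dslope φ 0 w‖ ≤ 1 := by
    intro w hw
    have := Complex.norm_dslope_le_div_of_mapsTo_ball hφd hmaps hw
    simpa using this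
  have hψmaps : MapsTo (dslope φ 0) (Metric.ball 0 1)
      (Metric.closedBall (dslope φ 0 0) 2) := by
    intro w hw
    rw [mem_closedBall_iff_norm]
    calc ‖dslope φ 0 w - dslope φ 0 0‖ ≤ ‖dslope φ 0 w‖ + ‖dslope φ 0 0‖ := norm_sub_le _ _
      _ ≤ 1 + 1 := add_le_add (hψ1 w hw) (hψ1 0 h0)
      _ = 2 := by norm_num
  have hS2 : ‖dslope φ 0 z - dslope φ 0 0‖ ≤ 2 * ‖z‖ := by
    have := Complex.dist_le_div_mul_dist_of_mapsTo_ball hψd hψmaps hz1
    rw [dist_eq_norm, dist_zero_right] at this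
    simpa using this
  have hfac : φ z = z * dslope φ 0 z := by
    have := sub_smul_dslope φ 0 z
    rw [hφ0, sub_zero, sub_zero, smul_eq_mul] at this
    exact this.symm
  -- derivative of φ at 0
  have hF0 : HasDerivAt F (deriv F 0) 0 :=
    (hd.differentiableAt (Metric.ball_mem_nhds _ one_pos)).hasDerivAt
  have hs : F 0 + conj (F 0) = ((2 * a : ℝ) : ℂ) := by
    apply Complex.ext
    · simp [hadef]; ring
    · simp
  have ha2 : ((2 * a : ℝ) : ℂ) ≠ 0 := by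
    rw [Ne, Complex.ofReal_eq_zero]; positivity
  have hφder : HasDerivAt φ (deriv F 0 / ((2 * a : ℝ) : ℂ)) 0 := by
    have h1 : HasDerivAt φ ((deriv F 0 * (F 0 + conj (F 0)) - (F 0 - F 0) * deriv F 0) /
        (F 0 + conj (F 0)) ^ 2) 0 :=
      (hF0.sub_const (F 0)).div (hF0.add_const (conj (F 0))) (hden 0 h0)
    have h2 : (deriv F 0 * (F 0 + conj (F 0)) - (F 0 - F 0) * deriv F 0) /
        (F 0 + conj (F 0)) ^ 2 = deriv F 0 / ((2 * a : ℝ) : ℂ) := by
      rw [hs, sub_self, zero_mul, sub_zero]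
      field_simp
    rw [← h2]
    exact h1
  have hψ0 : dslope φ 0 0 = deriv F 0 / ((2 * a : ℝ) : ℂ) := by
    rw [dslope_same, hφder.deriv]
  -- F in terms of φ
  have hφhalf : ‖φ z‖ ≤ 1 / 2 := hS1.trans hz
  have h1φ : 1 - φ z ≠ 0 := by
    intro h
    have : φ z = 1 := by linear_combination -h
    rw [this] at hφhalf
    norm_num at hφhalf
  have hFφ : F z = F 0 + ((2 * a : ℝ) : ℂ) * φ z +
      ((2 * a : ℝ) : ℂ) * (φ z ^ 2 / (1 - φ z)) := by
    have hD := hden z hz1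
    have e1 : φ z * (F z + conj (F 0)) = F z - F 0 := by
      rw [hφ]
      field_simp
    have e2 : F z * (1 - φ z) = F 0 + conj (F 0) * φ z := by linear_combination -e1
    have e3 : F z * (1 - φ z) = F 0 * (1 - φ z) + ((2 * a : ℝ) : ℂ) * φ z := by
      rw [e2, ← hs]; ring
    have e4 : F z = F 0 + ((2 * a : ℝ) : ℂ) * φ z / (1 - φ z) := by
      field_simp
      linear_combination e3
    rw [e4]
    field_simp
    ring
  have hre : (F z).re ≤ a + 2 * a * (φ z).re + 2 * a * ‖φ z ^ 2 / (1 - φ z)‖ := by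
    have h1 : (F z).re = a + 2 * a * (φ z).re + 2 * a * (φ z ^ 2 / (1 - φ z)).re := by
      conv_lhs => rw [hFφ]
      rw [Complex.add_re, Complex.add_re, Complex.re_ofReal_mul, Complex.re_ofReal_mul]
    rw [h1]
    have h2 : (φ z ^ 2 / (1 - φ z)).re ≤ ‖φ z ^ 2 / (1 - φ z)‖ := Complex.re_le_norm _
    have h3 : 2 * a * (φ z ^ 2 / (1 - φ z)).re ≤ 2 * a * ‖φ z ^ 2 / (1 - φ z)‖ :=
      mul_le_mul_of_nonneg_left h2 (by positivity)
    linarith
  have hq : ‖φ z ^ 2 / (1 - φ z)‖ ≤ 2 * ‖z‖ ^ 2 := by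
    rw [norm_div, norm_pow]
    have h1 : 1 / 2 ≤ ‖1 - φ z‖ := by
      have := norm_sub_norm_le (1 : ℂ) (φ z)
      rw [norm_one] at this
      linarith
    rw [div_le_iff₀ (by linarith)]
    have h2 : ‖φ z‖ ^ 2 ≤ ‖z‖ ^ 2 := pow_le_pow_left₀ (norm_nonneg _) hS1 2
    nlinarith [sq_nonneg ‖z‖]
  have hlin : 2 * a * (φ z).re ≤ ‖deriv F 0‖ * ‖z‖ + 4 * a * ‖z‖ ^ 2 := by
    have h1 : φ z = z * dslope φ 0 0 + z * (dslope φ 0 z - dslope φ 0 0) := by
      rw [hfac]; ring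
    have h2 : (φ z).re ≤ ‖z * dslope φ 0 0‖ + ‖z * (dslope φ 0 z - dslope φ 0 0)‖ := by
      rw [h1]
      exact (Complex.re_le_norm _).trans (norm_add_le _ _)
    have h3 : ‖z * dslope φ 0 0‖ = ‖z‖ * (‖deriv F 0‖ / (2 * a)) := by
      rw [norm_mul, hψ0, norm_div, Complex.norm_real, Real.norm_of_nonneg (by positivity)]
    have h4 : ‖z * (dslope φ 0 z - dslope φ 0 0)‖ ≤ ‖z‖ * (2 * ‖z‖) := by
      rw [norm_mul]
      exact mul_le_mul_of_nonneg_left hS2 (norm_nonneg _)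
    rw [h3] at h2
    have h5 : 2 * a * (φ z).re ≤ 2 * a * (‖z‖ * (‖deriv F 0‖ / (2 * a)) + ‖z‖ * (2 * ‖z‖)) :=
      mul_le_mul_of_nonneg_left (by linarith) (by positivity)
    have h6 : 2 * a * (‖z‖ * (‖deriv F 0‖ / (2 * a)) + ‖z‖ * (2 * ‖z‖)) =
        ‖deriv F 0‖ * ‖z‖ + 4 * a * ‖z‖ ^ 2 := by
      field_simp
      ring
    linarith
  have hq2 : 2 * a * ‖φ z ^ 2 / (1 - φ z)‖ ≤ 4 * a * ‖z‖ ^ 2 := by
    have := mul_le_mul_of_nonneg_left hq (by positivity : 0 ≤ 2 * a)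
    linarith
  linarith

theorem hHSO (hHK : Pool.Agent.Helper35.PM.St_HK) : Pool.Agent.Helper88.QT.StHSO := by
  intro F hd hF z hz
  have h0 : (0 : ℂ) ∈ Metric.ball (0 : ℂ) 1 := by simp
  have hz1 : z ∈ Metric.ball (0 : ℂ) 1 := by
    rw [mem_ball_zero_iff]; linarith
  rcases (hF 0 h0).eq_or_lt with ha | ha
  · have h1 := (hHK F hd hF z hz1).1
    rw [← ha, mul_zero] at h1
    rw [← ha]
    have := mul_nonneg (norm_nonneg (deriv F 0)) (norm_nonneg z)
    linarith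
  · exact hso_aux F hd hF ha z hz

end Pool.Agent.Helper39.QT

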