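import Pool.Agent.Helper69.QT.St
import Pool.Agent.Helper35.PQF.All

/-!
# Project QD (MP_d112a4_gt), T1, module KBD: the universal bound along a disc
-/

set_option autoImplicit false

open MeasureTheory Set Filter Topology Complex
open scoped ENNReal ComplexConjugate

namespace Pool.Agent.Helper39.QT

open Pool.Agent.Helper69.QT
open Pool.Agent.Helper35.PM

theorem dKBD : St_KBD := by
  intro k h0 h1
  obtain ⟨L, hL, hzt⟩ := Pool.Agent.Helper12.PM.exists_zt h0 h1
  refine ⟨L, hL, hzt, fun g hg U hU f hf => ?_⟩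
  rw [← hzt]
  refine ((f1_ g hg U hU f hf L 2 hL fun t _ => ?_).2).trans ?_
  · have := (qf_ g hg _ (hf.2 _ (zt_mem t))).2.1
    linarith
  · refine ENNReal.ofReal_le_ofReal (Real.sqrt_le_sqrt ?_)
    nlinarith

end Pool.Agent.Helper39.QT

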