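import Pool.Agent.Helper85.QT.St3

set_option autoImplicit false

open MeasureTheory Matrix Set Topology
open scoped ENNReal ComplexConjugate

namespace Pool.Agent.Helper39.QT

open Pool.Agent.Helper85.QT Pool.Agent.Helper86.QA

set_option linter.unusedVariables false in
theorem hLKB (hFDC : Pool.Agent.Helper85.QT.StFDC) (hANB : Pool.Agent.Helper85.QT.StANB)
    (hLSD : Pool.Agent.Helper85.QT.StLSD) (hLKZ : Pool.Agent.Helper85.QT.StLKZ) :
    Pool.Agent.Helper85.QT.StLKB := by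
  obtain ⟨C, hC, hZ⟩ := hLKZ
  obtain ⟨C', m₁, hC', hm1, hL⟩ := hLSD
  refine ⟨C * 48 ^ 2, max m₁ 6, by positivity, ?_⟩
  intro Γ _ ρ A B α lam M G m φ C3 hAnn hm a ha b hb ha0 hb0 hD
  have hm6 : 6 ≤ m := le_trans (le_max_right _ _) hm
  obtain ⟨hlam, -, -, -, -, -, -, hlm, -⟩ := hANB Γ ρ A B α lam M G m φ C3 hAnn
  obtain ⟨-, hL2, -⟩ := hL Γ ρ A B α lam M G m φ C3 hAnn
  have hsub : EE lam G φ (m / 3) (2 * m / 3) ⊆ {ξ : ℂ | ξ ≠ 0 ∧ m / 48 ≤ fd lam ξ a} := by
    rintro _ ⟨w, hw, rfl⟩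
    refine ⟨Complex.exp_ne_zero _, ?_⟩
    have hdd : m / 3 ≤ dd m w := by
      unfold dd
      obtain ⟨h1, h2⟩ := hw
      exact le_min h1.le (by linarith)
    have h := hL2 w (m / 3) (by linarith) hdd a ha ha0
    have e : m / 3 / 16 = m / 48 := by ring
    rw [e] at h
    exact h
  refine (lintegral_mono_set hsub).trans
    ((hZ lam a b (m / 48) hlam ha0 hb0 (by linarith) ?_ (by linarith)).trans ?_)
  · have := Real.pi_lt_d2
    nlinarith
  · apply ENNReal.ofReal_le_ofReal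
    apply le_of_eq
    field_simp

end Pool.Agent.Helper39.QT

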