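import Pool.Agent.Helper69.QT.St

/-!
# Project QD (MP_d112a4_gt), T1, module SUF: representations into SU(1,1) are Fuchsian
-/

set_option autoImplicit false

open MeasureTheory Set Filter Topology Complex
open scoped ENNReal ComplexConjugate

namespace Pool.Agent.Helper39.QT

open Pool.Agent.Helper69.QT
open Pool.Agent.Helper35.PM (SL Mat)

/-- The Cayley transform. -/
private noncomputable def cay : SL :=
  ⟨!![(1 + I) / 2, (1 + I) / 2; (I - 1) / 2, (1 - I) / 2], by
    rw [Matrix.det_fin_two_of]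
    have h : I * I = -1 := I_mul_I
    linear_combination (-1 / 2 : ℂ) * h⟩

private theorem real_of {a b : ℂ} {M : Mat} (h00 : M 0 0 = a) (h01 : M 0 1 = b)
    (h10 : M 1 0 = conj b) (h11 : M 1 1 = conj a) (i j : Fin 2) :
    ((!![(1 + I) / 2, (1 + I) / 2; (I - 1) / 2, (1 - I) / 2] : Mat) * M *
      (!![(1 - I) / 2, -((1 + I) / 2); -((I - 1) / 2), (1 + I) / 2] : Mat)) i j ∈
        Set.range ((↑) : ℝ → ℂ) := by
  have hM : M = !![a, b; conj b, conj a] := by
    ext i j
    fin_cases i <;> fin_cases j <;> simp [h00, h01, h10, h11]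
  rw [hM]
  fin_cases i <;> fin_cases j
  · refine ⟨a.re + b.re, ?_⟩
    simp only [Matrix.mul_apply, Fin.sum_univ_two]
    apply Complex.ext
    · simp
      ring
    · simp
      ring
  · refine ⟨a.im - b.im, ?_⟩
    simp only [Matrix.mul_apply, Fin.sum_univ_two]
    apply Complex.ext
    · simp
      ring
    · simp
      ring
  · refine ⟨-(a.im + b.im), ?_⟩
    simp only [Matrix.mul_apply, Fin.sum_univ_two]
    apply Complex.ext
    · simp
      ring
    · simp
      ring
  · refine ⟨a.re - b.re, ?_⟩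
    simp only [Matrix.mul_apply, Fin.sum_univ_two]
    apply Complex.ext
    · simp
      ring
    · simp
      ring

theorem dSUF : St_SUF := by
  intro Γ _ ρ hρ
  refine ⟨cay, fun γ i j => ?_⟩
  obtain ⟨h1, h2⟩ := hρ γ
  have h3 := real_of (M := (ρ γ : Mat)) rfl rfl h2 h1 i j
  have h4 : ((cay * ρ γ * cay⁻¹ : SL) : Mat) =
      (!![(1 + I) / 2, (1 + I) / 2; (I - 1) / 2, (1 - I) / 2] : Mat) * (ρ γ : Mat) *
        (!![(1 - I) / 2, -((1 + I) / 2); -((I - 1) / 2), (1 + I) / 2] : Mat) := by
    rw [Matrix.SpecialLinearGroup.coe_mul, Matrix.SpecialLinearGroup.coe_mul,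
      Matrix.SpecialLinearGroup.coe_inv]
    congr 1
    rw [Matrix.adjugate_fin_two]
    rfl
  rw [h4]
  exact h3

end Pool.Agent.Helper39.QT

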